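import Pool.Agent.Q72.WE.Main

/-!
# Equal supports do not imply mutual absolute continuity of weighted extremal measures

Full (negative) answer to Q1 of MP_3df006_an. The question concerns `ℂⁿ` for all `n ≥ 1`; the
counterexample lives in `ℂ` (`n = 1`), with a smooth strictly subharmonic weight:
`K` is the closed unit disc, `Q(z) = (|z|² - 3) / 4` and `Ω` is the disc of radius `e`.
Here `V*(z) = (|z|² - 3) / 4` in the disc and `-1/2 + log |z|` outside, while
`U*(z) = (|z|² - 3) / 4` in the disc and `-1/2 + (1/2) log |z|` outside (a function of class `C¹`).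
So `μ = area + (1/2) arc length of the unit circle`, and `ν = area`.
-/

set_option autoImplicit false

open Pool.Agent.Q72.WE Q72.Green MeasureTheory Set

namespace Pool.Agent.Results.MP_3df006_an.NotMutuallyContinuous

/-- There are a bounded hyperconvex domain `Ω ⊆ ℂ`, a compact set `K ⊆ Ω` and a continuous weight
`Q` on `K` such that the measures `μ = dd^c V_{K,Q}*` and `ν = dd^c U_{K,Q,Ω}*` have the same
support, but `μ` is not absolutely continuous with respect to `ν`. -/
theorem result : ∃ (Ω K : Set ℂ) (Q : ℂ → ℝ) (μ ν : Measure ℂ),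
    IsHyperconvex Ω ∧ IsCompact K ∧ K ⊆ Ω ∧ IsWeight K Q ∧ Continuous Q ∧
    IsDDc univ (reg (extV K Q)) μ ∧ IsDDc Ω (reg (extU Ω K Q)) ν ∧
    μ.support = ν.support ∧ ¬ μ ≪ ν := by
  refine ⟨Om, Metric.closedBall 0 1, QQ, muV, area, hyperconvex_Om, isCompact_closedBall _ _, ?_,
    weight_QQ, ?_, ddcV, ddcU, ?_, not_ac⟩
  · apply Metric.closedBall_subset_ball
    have := Real.add_one_lt_exp (one_ne_zero (α := ℝ))
    linarith
  · unfold QQ
    fun_prop
  · rw [support_muV, support_area]

end Pool.Agent.Results.MP_3df006_an.NotMutuallyContinuous
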